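import Pool.Agent.R910.Mu.Over

/-!
# Totally real fields with positive mu: growth in elementary abelian extensions
-/

set_option autoImplicit false

namespace Pool.Agent.Results.MP_4e64b4_nt.ElementaryGrowth

open Pool.Agent.R910.Mu

/-- The Euler characteristic formula for even modules over a totally real field `F`. It is known
for the Iwasawa cohomology of finite modules, tensored with `F_p((T))`. -/
def HasEulerFormula {p : ℕ} [Fact p.Prime] {F : IntermediateField ℚ Om}
    (T : FullCohomology p (GalOver F)) : Prop :=
  ∀ A : GMod p (GalOver F), IsEvenOver A → T.h1 A = T.h2 A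

/-- **Growth.** For Iwasawa cohomology `T.h2 (triv p (GalOver F))` and
`T.h2 (permOver p F M hM)` are the numbers of factors `Λ/(p ^ m)` of the modules `X` of the problem
for the totally real fields `F` and `M`. -/
theorem result (p : ℕ) [Fact p.Prime] (hp : p ≠ 2) (F : IntermediateField ℚ Om)
    (_hF : FiniteDimensional ℚ F) (_hr : IsTotReal F) (T : FullCohomology p (GalOver F))
    (hT : HasEulerFormula T) (b : ℕ) (M : IntermediateField ℚ Om) (hM : FiniteDimensional ℚ M)
    (hel : IsElementary p F M b) :
    p ^ b * T.h2 (triv p (GalOver F)) ≤ (b * (p - 1) + 1) * T.h2 (permOver p F M hM) :=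
  growth_over hp F T hT b M hM hel

end Pool.Agent.Results.MP_4e64b4_nt.ElementaryGrowth
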