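import Pool.Agent.R493.MU.W

/-!
# Vanishing of `mu_p` and groups of automorphisms of order prime to `p`

Let `p` be an odd prime, `F` a (totally real) number field and `G` a group of automorphisms of `F`
of order prime to `p`. If `mu_p = 0` for the fixed fields of the subgroups of prime order of `G` but
not for `F`, then `G` has a nonzero representation modulo `p` in which no element `g ≠ 1` has a
nonzero fixed vector (so `G` is trivial or a Frobenius complement), and every subgroup of `G` whose
order is a product of two primes is cyclic. There is no hypothesis besides this.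

Proof. Let `N = F E` be a layer of the cyclotomic tower and `V(N)` the group of the characters of
order dividing `p` of the absolute Galois group of `N` which are unramified outside `p`. As the order
of `G` is prime to the degree of `E`, every `g` in `G` extends to an automorphism of `N` which is
trivial on `E`, and the fixed field of `g` in `N` is the layer of the fixed field of `g` in `F`. A
character in `V(N)` which is invariant under `g`, of prime order `l ≠ p`, extends to a character in
`V(N ^ g)` (take the `l`-th power of the argument and the `l`-th root of the value). Let `J` be the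
left ideal of `𝔽_p[G]` generated by the elements `N_h b`, `b ∈ G`, `h ∈ G` of prime order. If
`J ≠ 𝔽_p[G]`, then `𝔽_p[G] / J` is the representation. If `J = 𝔽_p[G]`, there are integers `c_i` with
`1 + p y = ∑ c_i a_i N_{h_i} b_i` in `ℤ[G]`, so a character in `V(N)` is determined by the extensions
of the characters `N_{h_i} b_i χ` to the layers of the fields `F ^ h_i`.
-/

set_option autoImplicit false

namespace Pool.Agent.Results.MP_4e64b4_nt.MinimalCounterexamples

open NumberField

/-- The algebraic closure of `ℚ`; number fields are its finite subfields. -/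
abbrev Om : Type := AlgebraicClosure ℚ

/-- The absolute Galois group of `ℚ`. -/
def Gam : Type := Om ≃ₐ[ℚ] Om

noncomputable instance : Group Gam := (AlgEquiv.aut : Group (Om ≃ₐ[ℚ] Om))

noncomputable instance : FunLike Gam Om Om := (AlgEquiv.instFunLike : FunLike (Om ≃ₐ[ℚ] Om) Om Om)

/-- The absolute Galois group of `N`. -/
noncomputable def absGal (N : IntermediateField ℚ Om) : Subgroup Gam := IntermediateField.fixingSubgroup N

/-- Homomorphisms from the absolute Galois group of `N` to the cyclic group of order `p`. -/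
abbrev Hom (p : ℕ) (N : IntermediateField ℚ Om) : Type := absGal N →* Multiplicative (ZMod p)

/-- The value of `χ` at `σ`. -/
noncomputable def ev {p : ℕ} {N : IntermediateField ℚ Om} (χ : Hom p N) (σ : Gam) (hσ : σ ∈ absGal N) :
    Multiplicative (ZMod p) :=
  χ ⟨σ, hσ⟩

/-- `χ` factors through a finite quotient, the Galois group of an extension contained in `N L`. -/
def IsFiniteLevel {p : ℕ} {N : IntermediateField ℚ Om} (χ : Hom p N) : Prop :=
  ∃ L : IntermediateField ℚ Om, FiniteDimensional ℚ L ∧
    ∀ (σ : Gam) (hσ : σ ∈ absGal N), (∀ x ∈ L, σ x = x) → ev χ σ hσ = 1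

/-- `σ` lies in the inertia group of the prime `P` of the ring of all algebraic integers. -/
def IsInertial (P : Ideal (𝓞 Om)) (σ : Gam) : Prop :=
  ∀ x y : 𝓞 Om, (y : Om) = σ (x : Om) → y - x ∈ P

/-- `χ` is unramified at all primes not above `p`. -/
def IsUnramified {p : ℕ} {N : IntermediateField ℚ Om} (χ : Hom p N) : Prop :=
  ∀ P : Ideal (𝓞 Om), P.IsMaximal → (p : 𝓞 Om) ∉ P → ∀ (σ : Gam) (hσ : σ ∈ absGal N),
    IsInertial P σ → ev χ σ hσ = 1

/-- The characters of order dividing `p` of the absolute Galois group of `N`, unramified outside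
`p`. -/
def V (p : ℕ) (N : IntermediateField ℚ Om) : Type := {χ : Hom p N // IsFiniteLevel χ ∧ IsUnramified χ}

/-- `mu_p(F) = 0`: the layers `F E` of the cyclotomic `Z_p`-extension of `F` have boundedly many
cyclic extensions of degree `p` unramified outside `p` (here counted by their characters). -/
def MuVanishes (p : ℕ) (F : IntermediateField ℚ Om) : Prop :=
  ∃ C : ℕ, ∀ (m : ℕ) (E : IntermediateField ℚ Om),
    E ≤ IntermediateField.adjoin ℚ {z : Om | z ^ (p ^ (m + 1)) = 1} →
    Module.finrank ℚ E = p ^ m → Finite (V p (F ⊔ E)) ∧ Nat.card (V p (F ⊔ E)) ≤ C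

/-- The group of automorphisms of `F`. -/
def AutF (F : IntermediateField ℚ Om) : Type := F ≃ₐ[ℚ] F

noncomputable instance (F : IntermediateField ℚ Om) : Group (AutF F) :=
  (AlgEquiv.aut : Group (F ≃ₐ[ℚ] F))

noncomputable instance (F : IntermediateField ℚ Om) : FunLike (AutF F) F F :=
  (AlgEquiv.instFunLike : FunLike (F ≃ₐ[ℚ] F) F F)

/-- The fixed field in `F` of a group `H` of automorphisms of `F` (the field generated by the fixed
elements). -/
noncomputable def fixedIn (F : IntermediateField ℚ Om) (H : Subgroup (AutF F)) :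
    IntermediateField ℚ Om :=
  IntermediateField.adjoin ℚ {x : Om | ∃ hx : x ∈ F, ∀ h ∈ H, h ⟨x, hx⟩ = ⟨x, hx⟩}

/-- `G` has a nonzero finite dimensional representation over the field with `p` elements in which
no `g ≠ 1` has a nonzero fixed vector. -/
def HasFixedPointFreeRep (p : ℕ) [Fact p.Prime] (G : Type) [Group G] : Prop :=
  ∃ (W : Type) (_ : AddCommGroup W) (_ : Module (ZMod p) W) (_ : FiniteDimensional (ZMod p) W)
    (ρ : Representation (ZMod p) G W), Nontrivial W ∧ ∀ g : G, g ≠ 1 → ∀ w, ρ g w = w → w = 0

theorem muVanishes_iff (p : ℕ) (F : IntermediateField ℚ Om) :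
    MuVanishes p F ↔ R493.MU.MuVanishesX p F := by
  have e : ∀ N : IntermediateField ℚ Om, Nonempty (V p N ≃ R493.MU.V p N) := by
    intro N
    refine ⟨Equiv.subtypeEquivRight fun χ => ?_⟩
    constructor
    · rintro ⟨⟨L, hL, h1⟩, h2⟩
      exact ⟨⟨L, hL, fun σ hσ => h1 σ.1 σ.2 hσ⟩, fun P hP hp σ hσ => h2 P hP hp σ.1 σ.2 hσ⟩
    · rintro ⟨⟨L, hL, h1⟩, h2⟩
      exact ⟨⟨L, hL, fun σ hσ h => h1 ⟨σ, hσ⟩ h⟩, fun P hP hp σ hσ h => h2 P hP hp ⟨σ, hσ⟩ h⟩
  unfold MuVanishes R493.MU.MuVanishesX
  refine exists_congr fun C => forall_congr' fun m => forall_congr' fun E =>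
    imp_congr_right fun _ => imp_congr_right fun _ => ?_
  obtain ⟨e⟩ := e (F ⊔ E)
  rw [Nat.card_congr e]
  exact and_congr_left fun _ => e.finite_iff

/-- The automorphisms of a minimal counterexample to `mu_p = 0`. -/
theorem result (p : ℕ) [Fact p.Prime] (_hp2 : p ≠ 2) (F : IntermediateField ℚ Om)
    [FiniteDimensional ℚ F] (G : Subgroup (AutF F)) (hp : ¬ p ∣ Nat.card G)
    (hF : ¬ MuVanishes p F)
    (hG : ∀ H : Subgroup (AutF F), H ≤ G → (Nat.card H).Prime → MuVanishes p (fixedIn F H)) :
    HasFixedPointFreeRep p G ∧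
    ∀ P : Subgroup (AutF F), P ≤ G → ∀ l q : ℕ, l.Prime → q.Prime →
      Nat.card P = l * q → IsCyclic P := by
  have hfin : Finite (AutF F) := inferInstanceAs (Finite (F ≃ₐ[ℚ] F))
  have h : HasFixedPointFreeRep p G := R493.MU.fpf_muX p F G hp
    (fun H hH hc => R493.MU.fixedIn_eq F H ▸ (muVanishes_iff p _).1 (hG H hH hc))
    (fun h => hF ((muVanishes_iff p F).2 h))
  exact ⟨h, fun P hP l q hl hq hc => R493.MU.cyclic_sub p G hp h P hP l q hl hq hc⟩

end Pool.Agent.Results.MP_4e64b4_nt.MinimalCounterexamples
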