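import Pool.Agent.R910.Mu.Real

/-!
# Vanishing of mu for totally real fields: primitive fields of `p`-power degree suffice
-/

set_option autoImplicit false

open NumberField

namespace Pool.Agent.Results.MP_4e64b4_nt.PrimitiveTotallyReal

open Pool.Agent.R910.Mu

/-- The extension `L` of `K` is unramified at all primes which do not lie above `p`. -/
def UnramifiedOutside (p : ℕ) (K L : Type) [Field K] [Field L] [Algebra K L] : Prop :=
  ∀ (P : Ideal (𝓞 L)) [P.IsPrime], (p : 𝓞 L) ∉ P → Algebra.IsUnramifiedAt (𝓞 K) P

/-- The cyclic extensions of degree `p` of `K` (inside the algebraic closure of `ℚ`) which are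
unramified outside `p`. -/
def cyclicExtensions (p : ℕ) (K : Type) [Field K] [Algebra K Om] : Set (IntermediateField K Om) :=
  {L | Module.finrank K L = p ∧ IsGalois K L ∧ UnramifiedOutside p K L}

/-- The statement of the problem for one odd prime `p` and one totally real field `F`: the number
of cyclic extensions of degree `p` of the `n`-th layer of the cyclotomic `Z_p`-extension of `F`
which are unramified outside `p` is bounded independently of `n`. For totally real `F` this is
equivalent to `μ_p(F) = 0`: the Galois group `X` of the problem is a finitely generated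
`Λ`-module, and the dimension of its coinvariants modulo `p` under `Γ ^ (p ^ n)` is
`r p ^ n + O(1)`, `r` the number of factors `Λ/(p ^ m_i)`. -/
def MuVanishes (p : ℕ) (F : IntermediateField ℚ Om) : Prop :=
  ∃ C : ℕ, ∀ (n : ℕ) (E : IntermediateField ℚ Om),
    E ≤ IntermediateField.adjoin ℚ {z : Om | z ^ (p ^ (n + 1)) = 1} →
    Module.finrank ℚ E = p ^ n → (cyclicExtensions p ↥(F ⊔ E)).encard ≤ C

/-- The localized cohomology theory computes the modules `X` of totally real fields. For the
Iwasawa cohomology of finite modules (without a twist) this is known: the cohomology of the trivial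
module has rank zero, and for `F` totally real the second cohomology of the permutation module of
`F` has the rank of `X/p`, by the Euler characteristic formula. -/
structure ComputesX {p : ℕ} [Fact p.Prime] (T : LocalizedCohomology p Gal) : Prop where
  h1_triv : T.h1 (triv p Gal) = 0
  muRank_eq_zero : ∀ (F : IntermediateField ℚ Om) (hF : FiniteDimensional ℚ F),
    IsTotReal F → (muRank T F hF = 0 ↔ MuVanishes p F)

/-- **Primitive totally real fields of `p`-power degree suffice.** -/
theorem result (p : ℕ) [Fact p.Prime] (hp : p ≠ 2) (hsol : HasSplitSolutions p Gal)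
    (T : LocalizedCohomology p Gal) (hT : ComputesX T) :
    (∀ F : IntermediateField ℚ Om, FiniteDimensional ℚ F → IsTotReal F →
      (∀ F' : IntermediateField ℚ Om, FiniteDimensional ℚ F' → IsTotReal F' → IsPrimitive F' →
        (∃ n : ℕ, n ≤ Module.finrank ℚ F ∧ Module.finrank ℚ F' = p ^ n) → MuVanishes p F') →
      MuVanishes p F) ∧
    ((∀ F : IntermediateField ℚ Om, FiniteDimensional ℚ F → IsTotReal F → MuVanishes p F) ↔
      ∀ F' : IntermediateField ℚ Om, FiniteDimensional ℚ F' → IsTotReal F' → IsPrimitive F' →
        (∃ n : ℕ, Module.finrank ℚ F' = p ^ n) → MuVanishes p F') := by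
  have h1 : ∀ F : IntermediateField ℚ Om, FiniteDimensional ℚ F → IsTotReal F →
      (∀ F' : IntermediateField ℚ Om, FiniteDimensional ℚ F' → IsTotReal F' → IsPrimitive F' →
        (∃ n : ℕ, n ≤ Module.finrank ℚ F ∧ Module.finrank ℚ F' = p ^ n) → MuVanishes p F') →
      MuVanishes p F := by
    intro F hF hr h
    rw [← hT.muRank_eq_zero F hF hr]
    refine muRank_eq_zero_of_totReal hp hsol T hT.h1_triv F hF hr ?_
    intro F' hF' n hr' hprim hdeg hn
    exact (hT.muRank_eq_zero _ hF' hr').mpr (h F' hF' hr' hprim ⟨n, hn, hdeg⟩)
  refine ⟨h1, fun h F' hF' hr' _ _ => h F' hF' hr', fun h F hF hr =>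
    h1 F hF hr fun F' hF' hr' hp' hn => ?_⟩
  obtain ⟨n, _, hn⟩ := hn
  exact h F' hF' hr' hp' ⟨n, hn⟩

end Pool.Agent.Results.MP_4e64b4_nt.PrimitiveTotallyReal
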