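import Pool.Agent.R910.Mu.CompReal

/-!
# Vanishing of mu for totally real fields: totally real companions of `p`-power degree
-/

set_option autoImplicit false

open NumberField

namespace Pool.Agent.Results.MP_4e64b4_nt.TotallyRealCompanions

open Pool.Agent.R910.Mu

/-- The extension `L` of `K` is unramified at all primes which do not lie above `p`. -/
def UnramifiedOutside (p : ℕ) (K L : Type) [Field K] [Field L] [Algebra K L] : Prop :=
  ∀ (P : Ideal (𝓞 L)) [P.IsPrime], (p : 𝓞 L) ∉ P → Algebra.IsUnramifiedAt (𝓞 K) P

/-- The cyclic extensions of degree `p` of `K` (inside the algebraic closure of `ℚ`) which are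
unramified outside `p`. -/
def cyclicExtensions (p : ℕ) (K : Type) [Field K] [Algebra K Om] : Set (IntermediateField K Om) :=
  {L | Module.finrank K L = p ∧ IsGalois K L ∧ UnramifiedOutside p K L}

/-- The statement of the problem for one odd prime `p` and one totally real field `F`: the number
of cyclic extensions of degree `p` of the `n`-th layer of the cyclotomic `Z_p`-extension of `F`
which are unramified outside `p` is bounded independently of `n`. For totally real `F` this is
equivalent to `μ_p(F) = 0`: the Galois group `X` of the problem is a finitely generated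
`Λ`-module, and the dimension of its coinvariants modulo `p` under `Γ ^ (p ^ n)` is
`r p ^ n + O(1)`, `r` the number of factors `Λ/(p ^ m_i)`. -/
def MuVanishes (p : ℕ) (F : IntermediateField ℚ Om) : Prop :=
  ∃ C : ℕ, ∀ (n : ℕ) (E : IntermediateField ℚ Om),
    E ≤ IntermediateField.adjoin ℚ {z : Om | z ^ (p ^ (n + 1)) = 1} →
    Module.finrank ℚ E = p ^ n → (cyclicExtensions p ↥(F ⊔ E)).encard ≤ C

/-- The localized cohomology theory over the totally real field `k` computes the modules `X` of
totally real fields. For the Iwasawa cohomology of finite modules (without a twist) this is known,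
by the Euler characteristic formula: for `F` totally real the second cohomology of the permutation
module of `F` has the rank of `X/p`. -/
structure ComputesX {p : ℕ} [Fact p.Prime] {k : IntermediateField ℚ Om}
    (T : LocalizedCohomology p (GalRel k)) : Prop where
  euler : T.h1 (triv p (GalRel k)) = T.h2 (triv p (GalRel k))
  zero_iff : ∀ (F : IntermediateField ℚ Om) (hF : FiniteDimensional ℚ F), k ≤ F →
    IsTotReal F → (T.h2 (permRel p k F hF) = 0 ↔ MuVanishes p F)

/-- **Totally real companions.** -/
theorem result (p : ℕ) [Fact p.Prime] (hp : p ≠ 2) (k : IntermediateField ℚ Om)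
    (hk : FiniteDimensional ℚ k) (hsol : HasSplitSolutions p (GalRel k))
    (T : LocalizedCohomology p (GalRel k)) (hT : ComputesX T)
    (K : IntermediateField ℚ Om) (hK : FiniteDimensional ℚ K) (hkK : k ≤ K)
    (hr : IsTotReal K) (hn : (relSub k K).Normal) (m : ℕ) :
    ∃ (F : IntermediateField ℚ Om) (hF : FiniteDimensional ℚ F), k ≤ F ∧ IsTotReal F ∧
      Module.finrank ℚ F = p ^ ((m + 1) * (relSub k K).index) * Module.finrank ℚ k ∧
      IsElemOver p K (F ⊔ K) ((m + 1) * (relSub k K).index) ∧
      (relSub k (F ⊔ K)).Normal ∧
      (m + 1) * T.h2 (permRel p k K hK) ≤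
        T.h2 (permRel p k F hF) + T.h2 (triv p (GalRel k)) ∧
      (MuVanishes p K ↔ MuVanishes p F) := by
  obtain ⟨F, hF, hkF, hd, hel, hnn, hle, himp⟩ := exists_companion hk hsol T K hK hkK hn m
  have hrF : IsTotReal F := (isTotReal_of_elem hp hr hel).mono le_sup_left
  rw [hT.euler] at hle
  refine ⟨F, hF, hkF, hrF, hd, hel, hnn, hle, ?_⟩
  rw [← hT.zero_iff K hK hkK hr, ← hT.zero_iff F hF hkF hrF]
  refine ⟨himp, fun h0 => ?_⟩
  haveI := relSub_finiteIndex k F hF
  have h1 := h2_triv_le T (relSub k F) (relSub_open k F hF)
  have h2 : T.h2 (perm p (relSub k F) (relSub_open k F hF)) = 0 := h0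
  have h3 : T.h2 (triv p (GalRel k)) = 0 := by omega
  rw [h0, h3] at hle
  have h4 : (m + 1) * T.h2 (permRel p k K hK) = 0 := by omega
  exact (Nat.mul_eq_zero.mp h4).resolve_left (Nat.succ_ne_zero m)

end Pool.Agent.Results.MP_4e64b4_nt.TotallyRealCompanions
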